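import Pool.Agent.H74.TF.Stm

/-! Part ESY of the project TF: the fundamental theorem for two groups of variables. -/

set_option autoImplicit false

namespace Pool.Agent.H87.TF

open Equiv MvPolynomial Pool.Agent.H74.TF

section

variable (R : Type) [CommRing R] (m k : ℕ)

/-- substitution of the elementary symmetric polynomials -/
noncomputable abbrev EA (A : Type) [CommRing A] (n : ℕ) :
    MvPolynomial (Fin n) A →ₐ[A] MvPolynomial (Fin n) A :=
  aeval (fun i : Fin n => esymm (Fin n) A (i + 1))

theorem EA_inj (A : Type) [CommRing A] (n : ℕ) : Function.Injective (EA A n) := by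
  intro p q h
  apply (esymmAlgHom_fin_bijective A n).1
  apply Subtype.ext
  rw [esymmAlgHom_apply, esymmAlgHom_apply]
  exact h

theorem EA_surj (A : Type) [CommRing A] (n : ℕ) (f : MvPolynomial (Fin n) A) (hf : f.IsSymmetric) :
    ∃ q, EA A n q = f := by
  obtain ⟨q, hq⟩ := (esymmAlgHom_fin_bijective A n).2 ⟨f, hf⟩
  refine ⟨q, ?_⟩
  have := congrArg Subtype.val hq
  rw [esymmAlgHom_apply] at this
  exact this

theorem Phi_rename (π : Perm (Fin m)) (π' : Perm (Fin k)) (f : MvPolynomial (Fin m ⊕ Fin k) R) :
    sumRingEquiv R (Fin m) (Fin k) (rename (Sum.map π π') f) =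
      rename π (MvPolynomial.map (rename π' :
        MvPolynomial (Fin k) R →ₐ[R] MvPolynomial (Fin k) R).toRingHom
        (sumRingEquiv R (Fin m) (Fin k) f)) := by
  induction f using MvPolynomial.induction_on with
  | C a => simp
  | add p q hp hq => simp only [map_add, hp, hq]
  | mul_X p c hp =>
    simp only [map_mul, hp]
    congr 1
    rcases c with i | s
    · simp
    · simp

theorem Phi_inl (p : MvPolynomial (Fin m) R) :
    sumRingEquiv R (Fin m) (Fin k) (rename Sum.inl p) = MvPolynomial.map C p := by
  induction p using MvPolynomial.induction_on with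
  | C a => simp
  | add p q hp hq => simp only [map_add, hp, hq]
  | mul_X p c hp =>
    simp only [map_mul, hp]
    congr 1
    simp

theorem Phi_inr (p : MvPolynomial (Fin k) R) :
    sumRingEquiv R (Fin m) (Fin k) (rename Sum.inr p) = C p := by
  induction p using MvPolynomial.induction_on with
  | C a => simp
  | add p q hp hq => simp only [map_add, hp, hq]
  | mul_X p c hp =>
    simp only [map_mul, hp]
    congr 1
    simp

theorem Phi_es (q : MvPolynomial (Fin m ⊕ Fin k) R) :
    sumRingEquiv R (Fin m) (Fin k) (aeval (es R m k) q) =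
      EA (MvPolynomial (Fin k) R) m (MvPolynomial.map (EA R k).toRingHom
        (sumRingEquiv R (Fin m) (Fin k) q)) := by
  induction q using MvPolynomial.induction_on with
  | C a => simp [MvPolynomial.algebraMap_eq]
  | add p q hp hq => simp only [map_add, hp, hq]
  | mul_X p c hp =>
    simp only [map_mul, hp]
    congr 1
    rcases c with i | s
    · rw [aeval_X, sumRingEquiv_X_inl, MvPolynomial.map_X, aeval_X]
      simp only [es]
      rw [Phi_inl, map_esymm]
    · rw [aeval_X, sumRingEquiv_X_inr, MvPolynomial.map_C, MvPolynomial.algHom_C,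
        MvPolynomial.algebraMap_eq]
      simp only [es]
      rw [Phi_inr]
      simp

theorem map_EA {A B : Type} [CommRing A] [CommRing B] (φ : A →+* B) (n : ℕ)
    (q : MvPolynomial (Fin n) A) :
    MvPolynomial.map φ (EA A n q) = EA B n (MvPolynomial.map φ q) := by
  induction q using MvPolynomial.induction_on with
  | C a => simp [MvPolynomial.algebraMap_eq]
  | add p q hp hq => simp only [map_add, hp, hq]
  | mul_X p c hp =>
    simp only [map_mul, hp]
    congr 1
    rw [aeval_X, MvPolynomial.map_X, aeval_X, map_esymm]

theorem es_inv (π : Perm (Fin m)) (π' : Perm (Fin k)) (c : Fin m ⊕ Fin k) :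
    rename (Sum.map π π') (es R m k c) = es R m k c := by
  rcases c with i | s
  · simp only [es]
    rw [rename_rename]
    have : Sum.map π π' ∘ Sum.inl = (Sum.inl : Fin m → Fin m ⊕ Fin k) ∘ π := rfl
    rw [this, ← rename_rename, esymm_isSymmetric]
  · simp only [es]
    rw [rename_rename]
    have : Sum.map π π' ∘ Sum.inr = (Sum.inr : Fin k → Fin m ⊕ Fin k) ∘ π' := rfl
    rw [this, ← rename_rename, esymm_isSymmetric]

theorem rename_aeval {σ τ : Type} (g : σ → MvPolynomial τ R) (h : τ → τ) (p : MvPolynomial σ R) :
    rename h (aeval g p) = aeval (fun x => rename h (g x)) p := by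
  induction p using MvPolynomial.induction_on with
  | C a => simp [MvPolynomial.algebraMap_eq]
  | add p q hp hq => simp only [map_add, hp, hq]
  | mul_X p c hp =>
    simp only [map_mul, hp]
    congr 1
    rw [aeval_X, aeval_X]

end

theorem t_ESY : C_ESY := by
  intro R _ m k
  refine ⟨fun f => ⟨?_, ?_⟩, ?_, ?_⟩
  · intro hf
    set F := sumRingEquiv R (Fin m) (Fin k) f with hF
    have h1 : F.IsSymmetric := by
      intro π
      have := Phi_rename R m k π 1 f
      rw [hf π 1] at this
      rw [← hF] at this
      have h2 : MvPolynomial.map (rename (1 : Perm (Fin k)) :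
          MvPolynomial (Fin k) R →ₐ[R] MvPolynomial (Fin k) R).toRingHom F = F := by
        have h3 : (rename (1 : Perm (Fin k)) : MvPolynomial (Fin k) R →ₐ[R]
            MvPolynomial (Fin k) R).toRingHom = RingHom.id _ := by
          apply RingHom.ext
          intro x
          exact rename_id_apply x
        rw [h3, MvPolynomial.map_id]
      rw [h2] at this
      exact this.symm
    obtain ⟨Q, hQ⟩ := EA_surj _ m F h1
    have h2 : ∀ π' : Perm (Fin k),
        MvPolynomial.map (rename π' :
          MvPolynomial (Fin k) R →ₐ[R] MvPolynomial (Fin k) R).toRingHom Q = Q := by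
      intro π'
      apply EA_inj
      rw [← map_EA, hQ]
      have := Phi_rename R m k 1 π' f
      rw [hf 1 π', ← hF] at this
      refine this.trans ?_ |>.symm
      exact rename_id_apply _
    have h3 : Q ∈ Set.range (MvPolynomial.map (EA R k).toRingHom) := by
      rw [mem_range_map_iff_coeffs_subset]
      intro c hc
      rw [Finset.mem_coe, MvPolynomial.mem_coeffs_iff] at hc
      obtain ⟨d, hd, rfl⟩ := hc
      obtain ⟨r, hr⟩ := EA_surj R k (coeff d Q) (by
        intro π'
        have := congrArg (coeff d) (h2 π')
        rw [coeff_map] at this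
        exact this)
      exact ⟨r, hr⟩
    obtain ⟨Q', hQ'⟩ := h3
    refine ⟨(sumRingEquiv R (Fin m) (Fin k)).symm Q', ?_⟩
    apply (sumRingEquiv R (Fin m) (Fin k)).injective
    rw [Phi_es, RingEquiv.apply_symm_apply, hQ', hQ, hF]
  · rintro ⟨q, rfl⟩ π π'
    rw [rename_aeval]
    congr 1
    congr 1
    funext c
    exact es_inv R m k π π' c
  · intro j π π'
    rw [rename_aeval]
    have h1 : (fun x => rename (Sum.map π π') (s1 R m k x)) =
        s1 R m k ∘ (Equiv.prodCongr π (Equiv.refl Bool)) := by
      funext x
      simp only [s1, Function.comp, map_add, rename_X, Sum.map_inl, Equiv.prodCongr_apply,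
        Prod.map, Equiv.coe_refl, id]
      split_ifs <;> simp
    rw [h1, ← aeval_rename, esymm_isSymmetric]
  · intro j π π'
    rw [rename_aeval]
    have h1 : (fun x => rename (Sum.map π π') (s2 R m k x)) =
        s2 R m k ∘ (Equiv.sumCongr (Equiv.prodCongr π (Equiv.refl Bool)) π') := by
      funext x
      rcases x with x | r
      · simp only [s1, s2, Function.comp, map_add, rename_X, Sum.map_inl, Equiv.prodCongr_apply,
          Prod.map, Equiv.coe_refl, id, Equiv.sumCongr_apply]
        split_ifs <;> simp
      · simp [s2]
    rw [h1, ← aeval_rename, esymm_isSymmetric]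

end Pool.Agent.H87.TF
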