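import Pool.Agent.H74.TF.Stm

/-! Part V0 of the project TF. -/

set_option autoImplicit false

namespace Pool.Agent.H87.TF

open Finset Equiv MvPolynomial Pool.Agent.H74.TF

theorem wr_iff {m : ℕ} (a : Perm (Fin m × Bool)) :
    wr a ↔ ∀ i b, a (i, !b) = ((a (i, b)).1, !(a (i, b)).2) := by
  constructor
  · intro h i b
    have h1 := h i
    have h2 : a (i, false) ≠ a (i, true) := by
      intro e
      have := a.injective e
      simp at this
    have h3 : (a (i, false)).2 ≠ (a (i, true)).2 := fun e => h2 (Prod.ext h1 e)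
    cases b
    · refine Prod.ext h1.symm ?_
      show (a (i, true)).2 = !(a (i, false)).2
      revert h3
      generalize (a (i, false)).2 = x
      generalize (a (i, true)).2 = y
      cases x <;> cases y <;> simp
    · refine Prod.ext h1 ?_
      show (a (i, false)).2 = !(a (i, true)).2
      revert h3
      generalize (a (i, false)).2 = x
      generalize (a (i, true)).2 = y
      cases x <;> cases y <;> simp
  · intro h i
    have := h i false
    exact (congrArg Prod.fst this).symm

theorem dl_inl {m k : ℕ} (i : Fin m) (b : Bool) : dl m k (Sum.inl (i, b)) = Sum.inl (i, !b) := rfl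

theorem dl_inr {m k : ℕ} (r : Fin k) : dl m k (Sum.inr r) = Sum.inr r := rfl

theorem iot_comm {m k : ℕ} (a : Perm (Fin m × Bool)) (b : Perm (Fin k)) (ha : wr a) :
    iot a b * dl m k = dl m k * iot a b := by
  ext x
  rcases x with ⟨i, c⟩ | r
  · show (Sum.inl (a (i, !c)) : Pt m k) = dl m k (Sum.inl (a (i, c)))
    rw [(wr_iff a).mp ha]
    rfl
  · rfl

theorem exists_iff {m k : ℕ} (g : Perm (Pt m k)) :
    (∃ a b, wr a ∧ g = iot a b) ↔ g * dl m k = dl m k * g := by
  constructor
  · rintro ⟨a, b, ha, rfl⟩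
    exact iot_comm a b ha
  · intro h
    have hx : ∀ x, g (dl m k x) = dl m k (g x) := fun x => Equiv.congr_fun h x
    have hm : Set.MapsTo g (Set.range (Sum.inl : Fin m × Bool → Pt m k))
        (Set.range (Sum.inl : Fin m × Bool → Pt m k)) := by
      rintro _ ⟨⟨i, c⟩, rfl⟩
      rcases hg : g (Sum.inl (i, c)) with y | r
      · exact ⟨y, rfl⟩
      · exfalso
        have := hx (Sum.inl (i, c))
        rw [hg, dl_inr, ← hg] at this
        have := g.injective this
        rw [dl_inl] at this
        simp at this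
    obtain ⟨⟨a, b⟩, hab⟩ := Equiv.Perm.mem_sumCongrHom_range_of_perm_mapsTo_inl hm
    have hg : g = iot a b := hab.symm
    refine ⟨a, b, ?_, hg⟩
    rw [wr_iff]
    intro i c
    have := hx (Sum.inl (i, c))
    rw [dl_inl, hg] at this
    have h2 : (Sum.inl (a (i, !c)) : Pt m k) = Sum.inl ((a (i, c)).1, !(a (i, c)).2) := this
    exact Sum.inl_injective h2

theorem iot_inj {m k : ℕ} {a a' : Perm (Fin m × Bool)} {b b' : Perm (Fin k)}
    (h : iot a b = iot a' b') : a = a' ∧ b = b' := by
  constructor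
  · ext1 x
    have := Equiv.congr_fun h (Sum.inl x)
    exact Sum.inl_injective this
  · ext1 x
    have := Equiv.congr_fun h (Sum.inr x)
    exact Sum.inr_injective this

theorem v0_iot (R : Type) [CommRing R] {m k : ℕ} (a : Perm (Fin m × Bool)) (b : Perm (Fin k))
    (ha : wr a) : v0 R m k (iot a b) = ((sg b : ℤ) : R) := by
  classical
  unfold v0
  rw [Finset.sum_eq_single a, Finset.sum_eq_single b]
  · rw [if_pos ⟨ha, rfl⟩]
  · intro b' _ hb'
    rw [if_neg]
    rintro ⟨_, h⟩
    exact hb' (iot_inj h).2.symm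
  · intro h
    exact absurd (Finset.mem_univ _) h
  · intro a' _ ha'
    apply Finset.sum_eq_zero
    intro b' _
    rw [if_neg]
    rintro ⟨_, h⟩
    exact ha' (iot_inj h).1.symm
  · intro h
    exact absurd (Finset.mem_univ _) h

theorem v0_zero (R : Type) [CommRing R] {m k : ℕ} (g : Perm (Pt m k))
    (h : ¬ ∃ a b, wr a ∧ g = iot a b) : v0 R m k g = 0 := by
  classical
  unfold v0
  apply Finset.sum_eq_zero
  intro a _
  apply Finset.sum_eq_zero
  intro b _
  rw [if_neg]
  exact fun h' => h ⟨a, b, h'⟩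

theorem iot_mul {m k : ℕ} (a a' : Perm (Fin m × Bool)) (b b' : Perm (Fin k)) :
    (iot a b : Perm (Pt m k)) * iot a' b' = iot (a * a') (b * b') :=
  Equiv.Perm.sumCongr_mul a b a' b'

theorem wr_mul {m : ℕ} {a a' : Perm (Fin m × Bool)} (h : wr a) (h' : wr a') : wr (a * a') := by
  rw [wr_iff] at *
  intro i b
  show a (a' (i, !b)) = ((a (a' (i, b))).1, !(a (a' (i, b))).2)
  rw [h' i b, h]

theorem sg_mul {k : ℕ} (b b' : Perm (Fin k)) : sg (b * b') = sg b * sg b' := by
  simp [sg]

theorem v0_SE (R : Type) [CommRing R] (m k : ℕ) : v0 R m k ∈ SE R m k := by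
  intro g a b ha
  by_cases hg : ∃ a b, wr a ∧ g = iot a b
  · obtain ⟨a', b', ha', rfl⟩ := hg
    rw [iot_mul, iot_mul, v0_iot R _ _ (wr_mul ha' ha), v0_iot R _ _ (wr_mul ha ha'),
      v0_iot R _ _ ha', sg_mul, sg_mul]
    constructor
    · rw [zsmul_eq_mul, ← Int.cast_mul, mul_comm]
    · rw [zsmul_eq_mul, ← Int.cast_mul]
  · have h1 : ¬ ∃ a' b', wr a' ∧ g * iot a b = iot a' b' := by
      rw [exists_iff]
      intro h
      apply hg
      rw [exists_iff]
      have hc := iot_comm a b ha (k := k)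
      have : g * dl m k * iot a b = dl m k * g * iot a b := by
        rw [mul_assoc, ← hc, ← mul_assoc, h, mul_assoc]
      exact mul_right_cancel this
    have h2 : ¬ ∃ a' b', wr a' ∧ iot a b * g = iot a' b' := by
      rw [exists_iff]
      intro h
      apply hg
      rw [exists_iff]
      have hc := iot_comm a b ha (k := k)
      have : iot a b * (g * dl m k) = iot a b * (dl m k * g) := by
        rw [← mul_assoc, h, ← mul_assoc, ← hc, mul_assoc]
      exact mul_left_cancel this
    rw [v0_zero R _ hg, v0_zero R _ h1, v0_zero R _ h2, smul_zero]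
    exact ⟨rfl, rfl⟩

theorem t_V0 : C_V0 := by
  refine ⟨fun m k a => wr_iff a, fun m k g => exists_iff g, fun R _ m k => ⟨?_, ?_, ?_, ?_, ?_⟩⟩
  · exact fun a b ha => v0_iot R a b ha
  · exact fun g hg => v0_zero R g hg
  · exact v0_SE R m k
  · exact fun ψ hψ g a b ha => (hψ g a b ha).1
  · intro g ψ hψ x a b ha
    show ψ (g⁻¹ * (x * iot a b)) = sg b • ψ (g⁻¹ * x)
    rw [← mul_assoc]
    exact hψ _ a b ha

end Pool.Agent.H87.TF
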